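import Mathlib
import Pool.Agent.TH119.FT.Dense

/-!
# Galois representations for all primes from one prime and an algebraic representation

Let `H ⊆ GL_m` be an algebraic group over an algebraically closed field `A` of characteristic zero
(think of `A = ℂ`), and let `h_v ∈ H(A)` be elements (Satake parameters) for the primes `v` of a
number field `K`, to which representations `W_j` of the absolute Galois group with values in
`H(k_j)` are attached, for various embeddings `ι_j` of `A` in topological fields `k_j` (such as the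
isomorphisms of `ℂ` with the algebraic closures of the fields `ℚ_ℓ`, for all `ℓ`).  Let `P_v` be
polynomials over `A` (the Hecke polynomials of an automorphic representation `π` of `GL_n`) such
that `P_v` divides the characteristic polynomial of `h_v ^ {⊗ a} ⊗ (h_v ^ ∨) ^ {⊗ b}` for almost all
`v`.  If for *one* index `j₀`, such that the image of `W_{j₀}` is Zariski dense in `H`, there is a
semisimple representation attached to the `P_v`, then there is an algebraic representation `R` of
`H` over `A` of dimension `n` such that `R ∘ W_j` has the Frobenius polynomials `ι_j(P_v)` for *all*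
`j`.
-/

namespace Pool.Agent.Results.MP_ef641d_nt.AlgebraicTransfer

open NumberField IsDedekindDomain Polynomial Filter Topology

/-- The absolute Galois group, with the Krull topology. -/
abbrev AbsGal (K : Type) [Field K] : Type := Gal(AlgebraicClosure K/K)

/-- `σ` is a Frobenius element at the prime `v` of `K`: there is a maximal ideal `Q` above `v` of the
ring of all algebraic integers with `σ x ≡ x ^ N(v)` modulo `Q` for all `x`. -/
def IsFrobenius {K : Type} [Field K] [NumberField K] (v : HeightOneSpectrum (𝓞 K))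
    (σ : AbsGal K) : Prop :=
  ∃ Q : Ideal (𝓞 (AlgebraicClosure K)), Q.IsMaximal ∧
    Q.comap (algebraMap (𝓞 K) (𝓞 (AlgebraicClosure K))) = v.asIdeal ∧
    ∀ x : 𝓞 (AlgebraicClosure K), σ • x - x ^ Ideal.absNorm v.asIdeal ∈ Q

/-- `σ` is in an inertia group at the prime `v` of `K`: there is a maximal ideal `Q` above `v` of the
ring of all algebraic integers with `σ x ≡ x` modulo `Q` for all `x`. -/
def IsInertia {K : Type} [Field K] [NumberField K] (v : HeightOneSpectrum (𝓞 K))
    (σ : AbsGal K) : Prop :=
  ∃ Q : Ideal (𝓞 (AlgebraicClosure K)), Q.IsMaximal ∧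
    Q.comap (algebraMap (𝓞 K) (𝓞 (AlgebraicClosure K))) = v.asIdeal ∧
    ∀ x : 𝓞 (AlgebraicClosure K), σ • x - x ∈ Q

/-- The set `S` of primes of `K` has (natural) density zero. Finite sets have density zero. -/
def HasDensityZero {K : Type} [Field K] [NumberField K]
    (S : Set (HeightOneSpectrum (𝓞 K))) : Prop :=
  Tendsto (fun N : ℕ =>
    ({v : HeightOneSpectrum (𝓞 K) | Ideal.absNorm v.asIdeal ≤ N ∧ v ∈ S}.ncard : ℝ) /
    {v : HeightOneSpectrum (𝓞 K) | Ideal.absNorm v.asIdeal ≤ N}.ncard) atTop (𝓝 0)

/-- The regular functions on `GL_m`: polynomials in the coefficients of a matrix `g` and the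
coefficients of `g⁻¹`. -/
abbrev RegularFunction (m : ℕ) (k : Type) [Field k] : Type :=
  MvPolynomial ((Fin m × Fin m) ⊕ (Fin m × Fin m)) k

/-- The value of a regular function at `g`. -/
noncomputable def value {m : ℕ} {k : Type} [Field k] (f : RegularFunction m k)
    (g : Matrix.GeneralLinearGroup (Fin m) k) : k :=
  MvPolynomial.eval (Sum.elim (fun p => (g : Matrix (Fin m) (Fin m) k) p.1 p.2)
    (fun p => ((g⁻¹ : Matrix.GeneralLinearGroup (Fin m) k) : Matrix (Fin m) (Fin m) k) p.1 p.2)) f

/-- The Zariski closure in `GL_m(k)`. -/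
def zariskiClosure {m : ℕ} {k : Type} [Field k] (X : Set (Matrix.GeneralLinearGroup (Fin m) k)) :
    Set (Matrix.GeneralLinearGroup (Fin m) k) :=
  {x | ∀ f : RegularFunction m k, (∀ y ∈ X, value f y = 0) → value f x = 0}

/-- The group `H(k)` of the `k`-valued points of the algebraic group `H ⊆ GL_m` over `A`, for
`ι : A → k`: the Zariski closure of the image of `H = H(A)` in `GL_m(k)`. -/
def points {m : ℕ} {A k : Type} [Field A] [Field k]
    (H : Subgroup (Matrix.GeneralLinearGroup (Fin m) A)) (ι : A →+* k) :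
    Set (Matrix.GeneralLinearGroup (Fin m) k) :=
  zariskiClosure (Matrix.GeneralLinearGroup.map ι '' (H : Set _))

/-- `x, y ∈ H(k)` have the same image under all regular functions on `H` over `k` which are constant
on the conjugacy classes of `H(k)`. -/
def SameClass {m : ℕ} {A k : Type} [Field A] [Field k]
    (H : Subgroup (Matrix.GeneralLinearGroup (Fin m) A)) (ι : A →+* k)
    (x y : Matrix.GeneralLinearGroup (Fin m) k) : Prop :=
  ∀ f : RegularFunction m k,
    (∀ z ∈ points H ι, ∀ w ∈ points H ι, value f (z * w * z⁻¹) = value f w) →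
    value f x = value f y

/-- The representation `W` with values in `H(k)` is attached to the conjugacy classes of the
`h_v ∈ H(A)` outside `S`, where `ι : A → k` is used to compare the classes. -/
structure IsAttachedToClasses {K : Type} [Field K] [NumberField K] {m : ℕ} {A : Type} [Field A]
    (H : Subgroup (Matrix.GeneralLinearGroup (Fin m) A))
    (h : HeightOneSpectrum (𝓞 K) → Matrix.GeneralLinearGroup (Fin m) A)
    (S : Set (HeightOneSpectrum (𝓞 K))) {k : Type} [Field k] [TopologicalSpace k] (ι : A →+* k)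
    (W : AbsGal K →* Matrix.GeneralLinearGroup (Fin m) k) : Prop where
  continuous : Continuous fun g => (W g : Matrix (Fin m) (Fin m) k)
  mem : ∀ σ, W σ ∈ points H ι
  unramified : ∀ v ∉ S, ∀ σ, IsInertia v σ → W σ = 1
  frobenius : ∀ v ∉ S, ∀ σ, IsFrobenius v σ →
    SameClass H ι (W σ) (Matrix.GeneralLinearGroup.map ι (h v))

/-- The representation `ρ` is attached to the polynomials `P_v` outside `S`, where `ι : A → k` is
used to compare the coefficients: it is continuous, unramified at the primes `v` outside `S`, and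
the Frobenius elements at these `v` have the characteristic polynomial `ι(P_v)`. -/
structure IsAttached {K : Type} [Field K] [NumberField K] {n : ℕ} {A : Type} [Field A]
    (P : HeightOneSpectrum (𝓞 K) → A[X]) (S : Set (HeightOneSpectrum (𝓞 K)))
    {k : Type} [Field k] [TopologicalSpace k] (ι : A →+* k)
    (ρ : AbsGal K →* Matrix.GeneralLinearGroup (Fin n) k) : Prop where
  continuous : Continuous fun g => (ρ g : Matrix (Fin n) (Fin n) k)
  unramified : ∀ v ∉ S, ∀ σ, IsInertia v σ → ρ σ = 1
  frobenius : ∀ v ∉ S, ∀ σ, IsFrobenius v σ →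
    (ρ σ : Matrix (Fin n) (Fin n) k).charpoly = (P v).map ι

/-- The representation `ρ` is semisimple: every stable subspace has a stable complement. -/
def IsSemisimple {G : Type} [Group G] {n : ℕ} {k : Type} [Field k]
    (ρ : G →* Matrix.GeneralLinearGroup (Fin n) k) : Prop :=
  ∀ V : Submodule k (Fin n → k),
    (∀ g, ∀ x ∈ V, (ρ g : Matrix (Fin n) (Fin n) k).mulVec x ∈ V) →
    ∃ V' : Submodule k (Fin n → k),
      (∀ g, ∀ x ∈ V', (ρ g : Matrix (Fin n) (Fin n) k).mulVec x ∈ V') ∧ IsCompl V V'

/-- The matrix of `g ^ {⊗ a} ⊗ (g ^ ∨) ^ {⊗ b}` in the standard basis: the coefficients are products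
of `a` coefficients of `g` and `b` coefficients of the transpose of `g⁻¹`. -/
def tensorConstruction {m : ℕ} {A : Type} [Field A]
    (g : Matrix.GeneralLinearGroup (Fin m) A) (a b : ℕ) :
    Matrix ((Fin a → Fin m) × (Fin b → Fin m)) ((Fin a → Fin m) × (Fin b → Fin m)) A :=
  Matrix.of fun I J => (∏ s, (g : Matrix (Fin m) (Fin m) A) (I.1 s) (J.1 s)) *
    ∏ t, ((g⁻¹ : Matrix.GeneralLinearGroup (Fin m) A) : Matrix (Fin m) (Fin m) A) (J.2 t) (I.2 t)

/-- The matrix of the values of regular functions. -/
noncomputable def matrixValue {m n : ℕ} {k : Type} [Field k]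
    (R : Matrix (Fin n) (Fin n) (RegularFunction m k))
    (g : Matrix.GeneralLinearGroup (Fin m) k) : Matrix (Fin n) (Fin n) k :=
  R.map fun f => value f g

/-- `R` is an algebraic representation of `H`. -/
def IsRepresentation {m n : ℕ} {A : Type} [Field A]
    (H : Subgroup (Matrix.GeneralLinearGroup (Fin m) A))
    (R : Matrix (Fin n) (Fin n) (RegularFunction m A)) : Prop :=
  (∀ x ∈ H, ∀ y ∈ H, matrixValue R (x * y) = matrixValue R x * matrixValue R y) ∧
    matrixValue R 1 = 1

/-- **Theorem.** Let `K` be a number field, `A` an algebraically closed field of characteristic zero.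

(1) Let `H ⊆ GL_m(A)` be a subgroup, `h_v ∈ H`, and let `W_j` be representations with values in
`H(k_j)`, attached to the classes of the `h_v` outside sets `S_j` of density zero. Let the
polynomials `P_v` over `A` divide the characteristic polynomials of
`h_v ^ {⊗ a} ⊗ (h_v ^ ∨) ^ {⊗ b}` for `v` outside a set of density zero. Suppose that for one index
`j₀` the image of `W_{j₀}` is Zariski dense in `H(k_{j₀})` and there is a semisimple `n`-dimensional
representation over `k_{j₀}` attached to the `P_v` outside `S_{j₀}`. Then there is an algebraic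
representation `R` of `H` over `A` of dimension `n` such that `R(h_v)` has the characteristic
polynomial `P_v` at all `v` outside the intersection `D` of the sets `S_i`, for those `i` for which a
representation attached to the `P_v` outside `S_i` exists; and for *all* `j` the matrices
`R(W_j(σ))` form a representation, with a semisimple representation with the same characteristic
polynomials, which is attached to the `P_v` outside `S_j ∪ D`.

(2) For `H = GL_m(A)` a representation `W` is attached to the classes of the `h_v` outside `S` if and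
only if it is attached to the characteristic polynomials of the `h_v` outside `S`. -/
theorem result (K : Type) [Field K] [NumberField K] (A : Type) [Field A] [CharZero A]
    [IsAlgClosed A] :
    (∀ {m n : ℕ} (H : Subgroup (Matrix.GeneralLinearGroup (Fin m) A))
      (h : HeightOneSpectrum (𝓞 K) → Matrix.GeneralLinearGroup (Fin m) A) (_ : ∀ v, h v ∈ H)
      (P : HeightOneSpectrum (𝓞 K) → A[X])
      (J : Type) (k : J → Type) [∀ j, Field (k j)] [∀ j, IsAlgClosed (k j)]
      [∀ j, TopologicalSpace (k j)] [∀ j, IsTopologicalRing (k j)] [∀ j, T2Space (k j)]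
      (ι : ∀ j, A →+* k j) (S : J → Set (HeightOneSpectrum (𝓞 K)))
      (_ : ∀ j, HasDensityZero (S j))
      (W : ∀ j, AbsGal K →* Matrix.GeneralLinearGroup (Fin m) (k j))
      (_ : ∀ j, IsAttachedToClasses H h (S j) (ι j) (W j))
      (j₀ : J) (_ : points H (ι j₀) ⊆ zariskiClosure (Set.range (W j₀)))
      (ρ₀ : AbsGal K →* Matrix.GeneralLinearGroup (Fin n) (k j₀)) (_ : IsSemisimple ρ₀)
      (_ : IsAttached P (S j₀) (ι j₀) ρ₀)
      (a b : ℕ) (T : Set (HeightOneSpectrum (𝓞 K))) (_ : HasDensityZero T)
      (_ : ∀ v ∉ T, P v ∣ (tensorConstruction (h v) a b).charpoly)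
      (D : Set (HeightOneSpectrum (𝓞 K)))
      (_ : D = {v | ∀ i, (∃ ρ : AbsGal K →* Matrix.GeneralLinearGroup (Fin n) (k i),
        IsAttached P (S i) (ι i) ρ) → v ∈ S i}),
      ∃ R : Matrix (Fin n) (Fin n) (RegularFunction m A), IsRepresentation H R ∧
        (∀ v ∉ D, (matrixValue R (h v)).charpoly = P v) ∧
        ∀ j, ∃ r ρ : AbsGal K →* Matrix.GeneralLinearGroup (Fin n) (k j),
          (∀ σ, (r σ : Matrix (Fin n) (Fin n) (k j)) =
            matrixValue (R.map (MvPolynomial.map (ι j))) (W j σ)) ∧
          (∀ σ, (ρ σ : Matrix (Fin n) (Fin n) (k j)).charpoly =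
            (r σ : Matrix (Fin n) (Fin n) (k j)).charpoly) ∧
          IsSemisimple ρ ∧ IsAttached P (S j ∪ D) (ι j) ρ) ∧
    ∀ {m : ℕ} (h : HeightOneSpectrum (𝓞 K) → Matrix.GeneralLinearGroup (Fin m) A)
      (k : Type) [Field k] [IsAlgClosed k] [TopologicalSpace k] (ι : A →+* k)
      (S : Set (HeightOneSpectrum (𝓞 K)))
      (W : AbsGal K →* Matrix.GeneralLinearGroup (Fin m) k),
      IsAttachedToClasses ⊤ h S ι W ↔
        IsAttached (fun v => (h v : Matrix (Fin m) (Fin m) A).charpoly) S ι W := by
  have hthin := fun S hS => Pool.Agent.TH119.GO.thin_of_tendsto (K := K) S hS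
  have hfrob : ∀ v : HeightOneSpectrum (𝓞 K), ∃ τ : AbsGal K, IsFrobenius v τ :=
    (Pool.Agent.W401.Frob.main K).1
  have hatt : ∀ {m : ℕ} {H : Subgroup (Matrix.GeneralLinearGroup (Fin m) A)}
      {h : HeightOneSpectrum (𝓞 K) → Matrix.GeneralLinearGroup (Fin m) A}
      {S : Set (HeightOneSpectrum (𝓞 K))} {k : Type} [Field k] [TopologicalSpace k]
      {ι : A →+* k} {W : AbsGal K →* Matrix.GeneralLinearGroup (Fin m) k},
      IsAttachedToClasses H h S ι W → Pool.Agent.TH119.FT.AttH H h S ι W := by
    intro m H h S k _ _ ι W hW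
    exact ⟨hW.continuous, hW.mem, hW.frobenius⟩
  refine ⟨?_, ?_⟩
  · intro m n H h hh P J k _ _ _ _ _ ι S hS W hW j₀ hdense ρ₀ hss hρ₀ a b T hT hdiv D hD
    obtain ⟨F, hF1, hF2, hF3⟩ := Pool.Agent.TH119.FT.main H h hh P (ι j₀) (S j₀)
      (hthin _ (hS j₀)) (W j₀) (hatt (hW j₀))
      (fun x hx => hdense (Pool.Agent.TH119.FT.gm_mem H (ι j₀) hx)) ρ₀ hρ₀.continuous hss
      hρ₀.frobenius a b T (hthin _ hT) hdiv
    have hvD : ∀ v ∉ D, (Pool.Agent.TH119.FT.mv F (h v)).charpoly = P v := by
      intro v hv
      rw [hD] at hv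
      have hv' : ¬ ∀ i, (∃ ρ : AbsGal K →* Matrix.GeneralLinearGroup (Fin n) (k i),
        IsAttached P (S i) (ι i) ρ) → v ∈ S i := hv
      push Not at hv'
      obtain ⟨i, ⟨ρ, hρ⟩, hvi⟩ := hv'
      have : CharZero (k i) := charZero_of_injective_ringHom (ι i).injective
      obtain ⟨r, hr1, hr2, hr3, hr4⟩ := Pool.Agent.TH119.FT.transfer H h F hF1 hF2 (ι i) (S i)
        (W i) (hatt (hW i))
      obtain ⟨τ, hτ⟩ := hfrob v
      have h1 := Pool.Agent.TH119.FT.charpoly_of_frob r ρ hr2 hρ.continuous (S i ∪ S j₀)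
        ((hthin _ (hS i)).union (hthin _ (hS j₀))) (by
        intro w hw σ hσ
        rw [hr4 w (fun h => hw (Or.inl h)) σ hσ, hF3 w (fun h => hw (Or.inr h)),
          hρ.frobenius w (fun h => hw (Or.inl h)) σ hσ]) τ
      rw [hr4 v hvi τ hτ, hρ.frobenius v hvi τ hτ] at h1
      exact Polynomial.map_injective _ (ι i).injective h1
    refine ⟨F, ⟨hF1, hF2⟩, hvD, fun j => ?_⟩
    have : CharZero (k j) := charZero_of_injective_ringHom (ι j).injective
    obtain ⟨r, hr1, hr2, hr3, hr4⟩ := Pool.Agent.TH119.FT.transfer H h F hF1 hF2 (ι j) (S j)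
      (W j) (hatt (hW j))
    obtain ⟨ρ, hρ1, hρ2, hρ3, hρ4⟩ := Pool.Agent.TH119.FT.exists_ss_mat r hr2
    refine ⟨r, ρ, hr1, hρ3, hρ2, ⟨hρ1, ?_, ?_⟩⟩
    · intro v hv σ hσ
      exact hρ4 _ (hr3 _ ((hW j).unramified v (fun h => hv (Or.inl h)) σ hσ))
    · intro v hv σ hσ
      rw [hρ3, hr4 v (fun h => hv (Or.inl h)) σ hσ, hvD v (fun h => hv (Or.inr h))]
  · intro m h k _ _ _ ι S W
    have hpts : ∀ x, x ∈ points (⊤ : Subgroup (Matrix.GeneralLinearGroup (Fin m) A)) ι :=
      fun x => Pool.Agent.TH119.FT.zcl_gm ι x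
    constructor
    · intro hW
      refine ⟨hW.continuous, hW.unramified, fun v hv σ hσ => ?_⟩
      let F : Matrix (Fin m) (Fin m) (Pool.Agent.TH119.FT.Reg m k) :=
        Matrix.of fun i j => MvPolynomial.X (Sum.inl (i, j))
      have hFv : ∀ g : Matrix.GeneralLinearGroup (Fin m) k, Pool.Agent.TH119.FT.mv F g = g := by
        intro g
        ext i j
        show MvPolynomial.eval (Pool.Agent.TH119.FT.cd g) (MvPolynomial.X (Sum.inl (i, j))) = _
        rw [MvPolynomial.eval_X]
        rfl
      have h1 := Pool.Agent.TH119.FT.charpoly_eq ⊤ ι F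
        (fun x _ y _ => by rw [hFv, hFv, hFv, Units.val_mul]) (by rw [hFv, Units.val_one])
        (W σ) (Pool.Agent.TH119.FT.gm ι (h v)) (hW.frobenius v hv σ hσ)
      rw [hFv, hFv] at h1
      rw [h1, ← Matrix.charpoly_map]
      rfl
    · intro hW
      refine ⟨hW.continuous, fun σ => hpts _, hW.unramified, fun v hv σ hσ f hf => ?_⟩
      refine Pool.Agent.TH119.FT.vl_eq_of_charpoly f
        (fun x _ y _ => hf x (hpts x) y (hpts y)) _ _ ?_
      rw [hW.frobenius v hv σ hσ, ← Matrix.charpoly_map]
      rfl

end Pool.Agent.Results.MP_ef641d_nt.AlgebraicTransfer
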