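import Mathlib
import Pool.Agent.TH119.DS.Main

/-!
# A theorem of Deligne–Serre type for `GL_n`

Let `K` and `E` be number fields and let `P_v`, for the primes `v` of `K` outside a finite set `S`,
be polynomials over the ring of integers of `E` (the Hecke polynomials of a cuspidal automorphic
representation of `GL_n` over `K` of Artin type).  We assume the bound for the mean square of the
traces which is given by the Rankin–Selberg method.  If for infinitely many primes `λ` of `E` there
is a semisimple representation of the absolute Galois group of `K` modulo `λ` attached to the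
`P_v`, then there is a representation with finite image in characteristic zero attached to them.
-/

namespace Pool.Agent.Results.MP_ef641d_nt.DeligneSerreAllRanks

open NumberField IsDedekindDomain Polynomial

/-- The absolute Galois group, with the Krull topology. -/
abbrev AbsGal (K : Type) [Field K] : Type := Gal(AlgebraicClosure K/K)

/-- `σ` is a Frobenius element at the prime `v` of `K`: there is a maximal ideal `Q` above `v` of the
ring of all algebraic integers with `σ x ≡ x ^ N(v)` modulo `Q` for all `x`. -/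
def IsFrobenius {K : Type} [Field K] [NumberField K] (v : HeightOneSpectrum (𝓞 K))
    (σ : AbsGal K) : Prop :=
  ∃ Q : Ideal (𝓞 (AlgebraicClosure K)), Q.IsMaximal ∧
    Q.comap (algebraMap (𝓞 K) (𝓞 (AlgebraicClosure K))) = v.asIdeal ∧
    ∀ x : 𝓞 (AlgebraicClosure K), σ • x - x ^ Ideal.absNorm v.asIdeal ∈ Q

/-- `σ` is in an inertia group at the prime `v` of `K`: there is a maximal ideal `Q` above `v` of the
ring of all algebraic integers with `σ x ≡ x` modulo `Q` for all `x`. -/
def IsInertia {K : Type} [Field K] [NumberField K] (v : HeightOneSpectrum (𝓞 K))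
    (σ : AbsGal K) : Prop :=
  ∃ Q : Ideal (𝓞 (AlgebraicClosure K)), Q.IsMaximal ∧
    Q.comap (algebraMap (𝓞 K) (𝓞 (AlgebraicClosure K))) = v.asIdeal ∧
    ∀ x : 𝓞 (AlgebraicClosure K), σ • x - x ∈ Q

/-- The representation `ρ` of the absolute Galois group of `K` over the field `k` is attached to the
polynomials `P_v` outside `S`, where `φ : 𝓞 E → k` is used to compare the coefficients: it has an
open kernel, and for the primes `v` outside `S` with `N(v) ≠ 0` in `k` it is unramified at `v` and
the Frobenius elements at `v` have the characteristic polynomial `φ(P_v)`. -/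
structure IsAttached {K E : Type} [Field K] [NumberField K] [Field E] [NumberField E] {n : ℕ}
    (P : HeightOneSpectrum (𝓞 K) → (𝓞 E)[X]) (S : Set (HeightOneSpectrum (𝓞 K)))
    {k : Type} [Field k] (φ : 𝓞 E →+* k)
    (ρ : AbsGal K →* Matrix.GeneralLinearGroup (Fin n) k) : Prop where
  openKernel : IsOpen (ρ.ker : Set (AbsGal K))
  unramified : ∀ v ∉ S, ((Ideal.absNorm v.asIdeal : ℕ) : k) ≠ 0 → ∀ σ, IsInertia v σ → ρ σ = 1
  frobenius : ∀ v ∉ S, ((Ideal.absNorm v.asIdeal : ℕ) : k) ≠ 0 → ∀ σ, IsFrobenius v σ →
    (ρ σ : Matrix (Fin n) (Fin n) k).charpoly = (P v).map φ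

/-- The representation `ρ` is semisimple: every stable subspace has a stable complement. -/
def IsSemisimple {G : Type} [Group G] {n : ℕ} {k : Type} [Field k]
    (ρ : G →* Matrix.GeneralLinearGroup (Fin n) k) : Prop :=
  ∀ W : Submodule k (Fin n → k),
    (∀ g, ∀ x ∈ W, (ρ g : Matrix (Fin n) (Fin n) k).mulVec x ∈ W) →
    ∃ W' : Submodule k (Fin n → k),
      (∀ g, ∀ x ∈ W', (ρ g : Matrix (Fin n) (Fin n) k).mulVec x ∈ W') ∧ IsCompl W W'

/-- The mean square of the traces is bounded: for every complex embedding `ι` of `E` there is a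
constant `C` such that the sum of `|ι(c_v)|²` over primes `v` outside `S` of norm at most `N` is at
most `C π(N)`, where `c_v` is the coefficient of `X ^ (n - 1)` in `P_v`. -/
def HasBoundedMeanSquare {K E : Type} [Field K] [NumberField K] [Field E] [NumberField E] (n : ℕ)
    (P : HeightOneSpectrum (𝓞 K) → (𝓞 E)[X]) (S : Set (HeightOneSpectrum (𝓞 K))) : Prop :=
  ∀ ι : E →+* ℂ, ∃ C : ℝ, ∀ (N : ℕ) (T : Finset (HeightOneSpectrum (𝓞 K))),
    (∀ v ∈ T, v ∉ S ∧ Ideal.absNorm v.asIdeal ≤ N) →
    ∑ v ∈ T, ‖ι ((P v).coeff (n - 1) : 𝓞 E)‖ ^ 2 ≤ C * Nat.primeCounting N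

/-- **Theorem.** Let `K`, `E` be number fields, `n ≥ 1`, `S` a finite set of primes of `K`, and let
`P_v` be polynomials over the ring of integers of `E` such that the mean square of the coefficients
of `X ^ (n - 1)` is bounded. Suppose that for infinitely many primes `λ` of `E` there is a
semisimple representation in dimension `n` over a field `k`, attached to the `P_v` outside `S` by
means of a homomorphism `φ : 𝓞 E → k` with kernel `λ`. Then for every embedding `ι` of `E` in an
algebraically closed field `Ω` there is an `n`-dimensional representation over `Ω` with open kernel,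
unramified at all primes outside `S`, such that the characteristic polynomial of the Frobenius
elements at `v` is `ι(P_v)` for all primes `v` outside `S`. -/
theorem result {n : ℕ} (hn : 0 < n) (K : Type) [Field K] [NumberField K] (E : Type) [Field E]
    [NumberField E] (P : HeightOneSpectrum (𝓞 K) → (𝓞 E)[X])
    (S : Set (HeightOneSpectrum (𝓞 K))) (hS : S.Finite) (hP : HasBoundedMeanSquare n P S)
    (hmod : {L : HeightOneSpectrum (𝓞 E) | ∃ (k : Type) (_ : Field k) (φ : 𝓞 E →+* k)
      (ρ : AbsGal K →* Matrix.GeneralLinearGroup (Fin n) k),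
      RingHom.ker φ = L.asIdeal ∧ IsSemisimple ρ ∧ IsAttached P S φ ρ}.Infinite)
    (Ω : Type) [Field Ω] [IsAlgClosed Ω] (ι : E →+* Ω) :
    ∃ ρ : AbsGal K →* Matrix.GeneralLinearGroup (Fin n) Ω, IsOpen (ρ.ker : Set (AbsGal K)) ∧
      (∀ v ∉ S, ∀ σ, IsInertia v σ → ρ σ = 1) ∧
      ∀ v ∉ S, ∀ σ, IsFrobenius v σ →
        (ρ σ : Matrix (Fin n) (Fin n) Ω).charpoly = (P v).map (ι.comp (algebraMap (𝓞 E) E)) := by
  set Λ := {L : HeightOneSpectrum (𝓞 E) | ∃ (k : Type) (_ : Field k) (φ : 𝓞 E →+* k)
      (ρ : AbsGal K →* Matrix.GeneralLinearGroup (Fin n) k),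
      RingHom.ker φ = L.asIdeal ∧ IsSemisimple ρ ∧ IsAttached P S φ ρ} with hΛ
  haveI : Infinite Λ := hmod.to_subtype
  have hch : ∀ L : Λ, ∃ (k : Type) (_ : Field k) (φ : 𝓞 E →+* k)
      (ρ : AbsGal K →* Matrix.GeneralLinearGroup (Fin n) k),
      RingHom.ker φ = (L : HeightOneSpectrum (𝓞 E)).asIdeal ∧ IsSemisimple ρ ∧
        IsAttached P S φ ρ := fun L => L.2
  choose k hk φ ρ hφ hss hatt using hch
  exact Pool.Agent.TH119.DS.main hn P S hS hP (J := Λ) (k := k) φ (by
    intro a ha
    have h0 : Ideal.span {a} ≠ 0 := by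
      rwa [Ne, Ideal.zero_eq_bot, Ideal.span_singleton_eq_bot]
    refine Set.Finite.subset (Set.Finite.preimage Subtype.val_injective.injOn
      (Ideal.finite_factors h0)) ?_
    intro L hL
    change (L : HeightOneSpectrum (𝓞 E)).asIdeal ∣ Ideal.span {a}
    rw [Ideal.dvd_span_singleton, ← hφ L]
    exact hL) ρ (fun L => ⟨(hatt L).openKernel, hss L, (hatt L).unramified, (hatt L).frobenius⟩) ι

end Pool.Agent.Results.MP_ef641d_nt.DeligneSerreAllRanks
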