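import Pool.Agent.TH339.MP.X10

/-!
# Attaching a Galois representation by absolute values, or phases, on the edge of convergence

Let `π` be an algebraic automorphic representation of `GL(n)` over the rationals with Satake classes
`a_p` (in Clozel's normalisation), `r` an `ℓ`-adic representation of the absolute Galois group of the
rationals of dimension `n`, both of weight `w`: the eigenvalues of `a_p` and of Frobenius at `p` have
absolute value `p^{w/2}` outside a finite set `T` of primes.  Both Euler products converge absolutely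
for `Re s > w/2 + 1`; no continuation of either of them is assumed.  The theorem says that `r` is
attached to `π` at all primes outside `T` if the quotient of the two Euler products on the line
`Re s = w/2 + 1` lies in a fixed thin closed set (for example if its absolute value is one, or if it is
real) at a set of points of positive upper Banach density.
-/

set_option autoImplicit false

namespace Pool.Agent.Results.MP_ef641d_nt.EdgeModuli

open Filter Topology MeasureTheory

section
variable {n : ℕ}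

/-- The finite Euler product `∏_{p ≤ X, p ∉ T} det(1 - M_p p^{-s})⁻¹`. -/
noncomputable def finiteL (M : ℕ → Matrix (Fin n) (Fin n) ℂ) (T : Finset ℕ) (X : ℕ) (s : ℂ) : ℂ :=
  ∏ p ∈ (Finset.range (X + 1)).filter (fun p => p.Prime ∧ p ∉ T),
    ((1 - ((p : ℂ) ^ (-s)) • M p).det)⁻¹

open Classical in
/-- The partial L-function `∏_{p ∉ T} det(1 - M_p p^{-s})⁻¹`. -/
noncomputable def partialL (M : ℕ → Matrix (Fin n) (Fin n) ℂ) (T : Finset ℕ) (s : ℂ) : ℂ :=
  ∏' p : Nat.Primes, if (p : ℕ) ∈ T then 1 else ((1 - (((p : ℕ) : ℂ) ^ (-s)) • M p).det)⁻¹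

/-- The points `τ` at which the quotient of the Euler products of `M` and `M'` on the line
`Re s = w/2 + 1`, or the boundary value of the quotient of their L-functions, exists and lies in
`W`. -/
def quotientIn (M M' : ℕ → Matrix (Fin n) (Fin n) ℂ) (T : Finset ℕ) (w : ℝ) (W : Set ℂ) : Set ℝ :=
  {τ : ℝ | ∃ q ∈ W,
    Tendsto (fun X : ℕ => finiteL M T X ((w / 2 + 1 : ℝ) + τ * Complex.I) /
      finiteL M' T X ((w / 2 + 1 : ℝ) + τ * Complex.I)) atTop (𝓝 q) ∨
    Tendsto (fun σ : ℝ => partialL M T (σ + τ * Complex.I) / partialL M' T (σ + τ * Complex.I))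
      (𝓝[>] (w / 2 + 1)) (𝓝 q)}

end

/-- The upper Banach density of `Q` is positive: there is an `ε > 0` such that `Q` occupies more than
the proportion `ε` of arbitrarily long intervals. -/
def PosUpperBanachDensity (Q : Set ℝ) : Prop :=
  ∃ ε : ℝ, 0 < ε ∧ ∀ T₀ : ℝ, ∃ T : ℝ, T₀ ≤ T ∧ ∃ a : ℝ,
    ENNReal.ofReal (ε * T) < volume (Q ∩ Set.Icc a (a + T))

/-- The image under the exponential function of the line `Re (u z) = κ`: for `u = 1` the circle
`|q| = e^κ`, for `u = i` the ray of the numbers with argument `-κ`, in general a logarithmic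
spiral. -/
def spiral (u : ℂ) (κ : ℝ) : Set ℂ := {q : ℂ | ∃ z : ℂ, Complex.exp z = q ∧ (u * z).re = κ}

/-- **Moduli and phases on the edge.**  Let `r` be a homomorphism from the absolute Galois group of the
rationals to `GL_n(ℚ̄_ℓ)`, `σ_p` (`p ∉ T` prime) elements of the Galois group (geometric Frobenius
elements), `ι` an isomorphism of `ℚ̄_ℓ` with `ℂ`, and `a_p` complex matrices (representatives of the
Satake classes).  Suppose that for the primes `p ∉ T` all eigenvalues of `a_p` and of `ι(r(σ_p))` have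
absolute value at most `p^{w/2}`.  Let `W` be a set of complex numbers, closed in `ℂ \ {0}` and contained
in the union of countably many logarithmic spirals (such as circles with centre `0` and lines through
`0`).  If the set of the points `τ` at which the quotient of the Euler products of `π` and `r` at
`w/2 + 1 + iτ` lies in `W` has positive upper Banach density, then for all primes `p ∉ T` the
characteristic polynomial of `ι(r(σ_p))` is that of `a_p`. -/
theorem result (n : ℕ) (l : ℕ) [Fact l.Prime]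
    (r : (AlgebraicClosure ℚ ≃ₐ[ℚ] AlgebraicClosure ℚ) →*
      Matrix.GeneralLinearGroup (Fin n) (AlgebraicClosure ℚ_[l]))
    (σ : ℕ → (AlgebraicClosure ℚ ≃ₐ[ℚ] AlgebraicClosure ℚ))
    (ι : AlgebraicClosure ℚ_[l] ≃+* ℂ) (a : ℕ → Matrix (Fin n) (Fin n) ℂ) (T : Finset ℕ) (w : ℝ)
    (ha : ∀ p : ℕ, p.Prime → p ∉ T → ∀ e ∈ (a p).charpoly.roots, ‖e‖ ≤ (p : ℝ) ^ (w / 2))
    (hr : ∀ p : ℕ, p.Prime → p ∉ T → ∀ e ∈ ((r (σ p)).val.map ι).charpoly.roots,
      ‖e‖ ≤ (p : ℝ) ^ (w / 2))
    (W : Set ℂ) (hWc : IsClosed (W ∪ {0})) (u : ℕ → ℂ) (hu : ∀ j, u j ≠ 0) (κ : ℕ → ℝ)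
    (hW : W ⊆ ⋃ j, spiral (u j) (κ j))
    (hQ : PosUpperBanachDensity (quotientIn a (fun p => (r (σ p)).val.map ι) T w W)) :
    ∀ p : ℕ, p.Prime → p ∉ T → ((r (σ p)).val.map ι).charpoly = (a p).charpoly := by
  have hex : ∀ M : ℕ → Matrix (Fin n) (Fin n) ℂ, ∀ p : ℕ, ∃ α : Fin n → ℂ, (M p).charpoly.roots =
      Multiset.map α Finset.univ.val := fun M p => Pool.Agent.TH339.MP.exists_eig _
  set M' : ℕ → Matrix (Fin n) (Fin n) ℂ := fun p => (r (σ p)).val.map ι with hM'
  choose e he using hex a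
  choose f hf using hex M'
  -- the normalised eigenvalues
  set α : ℕ → Fin n → ℂ := fun p j => e p j * ((p : ℂ) ^ (-(w / 2 : ℝ) : ℂ)) with hα
  set β : ℕ → Fin n → ℂ := fun p j => f p j * ((p : ℂ) ^ (-(w / 2 : ℝ) : ℂ)) with hβ
  have hnorm : ∀ p : ℕ, p.Prime → ‖((p : ℂ) ^ (-(w / 2 : ℝ) : ℂ))‖ = ((p : ℝ) ^ (w / 2))⁻¹ := by
    intro p hp
    rw [Complex.norm_natCast_cpow_of_pos hp.pos, ← Real.rpow_neg (Nat.cast_nonneg p)]
    simp
  have hle : ∀ p : ℕ, p.Prime → ∀ z : ℂ, ‖z‖ ≤ (p : ℝ) ^ (w / 2) →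
      ‖z * ((p : ℂ) ^ (-(w / 2 : ℝ) : ℂ))‖ ≤ 1 := by
    intro p hp z hz
    rw [norm_mul, hnorm p hp, ← div_eq_mul_inv]
    have hpos : (0 : ℝ) < (p : ℝ) ^ (w / 2) := Real.rpow_pos_of_pos (by exact_mod_cast hp.pos) _
    exact (div_le_one hpos).2 hz
  have h1 : ∀ p : ℕ, p.Prime → p ∉ T → ∀ j, ‖α p j‖ ≤ 1 := by
    intro p hp hpT j
    refine hle p hp _ (ha p hp hpT _ ?_)
    rw [he p]
    exact Multiset.mem_map_of_mem _ (Finset.mem_univ_val j)
  have h1' : ∀ p : ℕ, p.Prime → p ∉ T → ∀ j, ‖β p j‖ ≤ 1 := by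
    intro p hp hpT j
    refine hle p hp _ (hr p hp hpT _ ?_)
    have : (M' p).charpoly.roots = Multiset.map (f p) Finset.univ.val := hf p
    rw [this]
    exact Multiset.mem_map_of_mem _ (Finset.mem_univ_val j)
  -- the local factors
  have hfac : ∀ (M : ℕ → Matrix (Fin n) (Fin n) ℂ) (g : ℕ → Fin n → ℂ),
      (∀ p, (M p).charpoly.roots = Multiset.map (g p) Finset.univ.val) →
      ∀ p : ℕ, p.Prime → ∀ s : ℂ, ((1 - ((p : ℂ) ^ (-(((w / 2 : ℝ) : ℂ) + s))) • M p).det)⁻¹ =
        ∏ j, (1 - (g p j * ((p : ℂ) ^ (-(w / 2 : ℝ) : ℂ))) * (p : ℂ) ^ (-s))⁻¹ := by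
    intro M g hg p hp s
    rw [Pool.Agent.TH339.MP.det_one_sub _ _ (hg p), Finset.prod_inv_distrib]
    congr 1
    refine Finset.prod_congr rfl fun j _ => ?_
    have hp0 : (p : ℂ) ≠ 0 := by exact_mod_cast hp.ne_zero
    rw [neg_add, Complex.cpow_add _ _ hp0]
    push_cast
    ring
  have hfin : ∀ (M : ℕ → Matrix (Fin n) (Fin n) ℂ) (g : ℕ → Fin n → ℂ),
      (∀ p, (M p).charpoly.roots = Multiset.map (g p) Finset.univ.val) → ∀ (X : ℕ) (τ : ℝ),
      finiteL M T X ((w / 2 + 1 : ℝ) + τ * Complex.I) =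
        ∏ p ∈ (Finset.range (X + 1)).filter (fun p => p.Prime ∧ p ∉ T),
          ∏ j, (1 - (g p j * ((p : ℂ) ^ (-(w / 2 : ℝ) : ℂ))) *
            (p : ℂ) ^ (-(1 + τ * Complex.I : ℂ)))⁻¹ := by
    intro M g hg X τ
    unfold finiteL
    refine Finset.prod_congr rfl fun p hp => ?_
    rw [Finset.mem_filter] at hp
    have es : (((w / 2 + 1 : ℝ) : ℂ) + τ * Complex.I) =
        (((w / 2 : ℝ) : ℂ) + (1 + τ * Complex.I)) := by
      push_cast
      ring
    rw [es]
    exact hfac M g hg p hp.2.1 _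
  have hL : ∀ (M : ℕ → Matrix (Fin n) (Fin n) ℂ) (g : ℕ → Fin n → ℂ)
      (hg : ∀ p, (M p).charpoly.roots = Multiset.map (g p) Finset.univ.val)
      (_ : ∀ p : ℕ, p.Prime → p ∉ T → ∀ j, ‖g p j * ((p : ℂ) ^ (-(w / 2 : ℝ) : ℂ))‖ ≤ 1)
      (s : ℂ), 1 < s.re → partialL M T (((w / 2 : ℝ) : ℂ) + s) =
        Complex.exp (Pool.Agent.TH339.MP.FF (Pool.Agent.TH339.MP.bα
          (fun p j => g p j * ((p : ℂ) ^ (-(w / 2 : ℝ) : ℂ))) T) s) := by
    intro M g hg hg1 s hs
    rw [← (Pool.Agent.TH339.MP.hasProd_α hg1 hs).tprod_eq]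
    unfold partialL
    refine tprod_congr fun p => ?_
    unfold Pool.Agent.TH339.MP.fα
    by_cases hp : (p : ℕ) ∈ T
    · rw [if_pos hp, if_pos hp]
    · rw [if_neg hp, if_neg hp]
      exact hfac M g hg p p.2 s
  -- the conclusion
  intro p hp hpT
  have hpoly := Pool.Agent.TH339.MP.thin_rigid h1 h1' hWc hu (κ := κ) hW
    (Q := quotientIn a M' T w W) (by
      rintro τ ⟨q, hq, hlim⟩ hτ1 hτ2
      have hkey := Pool.Agent.TH339.MP.quotient_limit h1 h1' hτ1 hτ2 (w := q) (by
        rcases hlim with hlim | hlim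
        · left
          refine hlim.congr fun X => ?_
          rw [hfin a e he X τ, hfin M' f hf X τ]
        · right
          have h3 : Tendsto (fun x : ℝ => w / 2 + 1 + x) (𝓝[>] 0) (𝓝[>] (w / 2 + 1)) := by
            rw [tendsto_nhdsWithin_iff]
            constructor
            · have h4 : Continuous fun x : ℝ => w / 2 + 1 + x := by fun_prop
              have h5 := h4.tendsto 0
              rw [add_zero] at h5
              exact h5.mono_left nhdsWithin_le_nhds
            · filter_upwards [self_mem_nhdsWithin] with x hx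
              have hx' : 0 < x := hx
              change w / 2 + 1 < w / 2 + 1 + x
              linarith
          refine (hlim.comp h3).congr' ?_
          filter_upwards [self_mem_nhdsWithin] with x hx
          have hx' : 0 < x := hx
          have es : (((w / 2 + 1 + x : ℝ) : ℂ) + τ * Complex.I) =
              (((w / 2 : ℝ) : ℂ) + (1 + τ * Complex.I + x)) := by
            push_cast
            ring
          have hre : 1 < (1 + τ * Complex.I + x : ℂ).re := by simpa using hx'
          simp only [Function.comp_apply]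
          rw [es, hL a e he h1 _ hre, hL M' f hf h1' _ hre])
      rw [hkey]
      exact hq) hQ hp hpT
  -- the eigenvalues
  have hroots : ∀ γ : Fin n → ℂ, (∏ j, (Polynomial.X - Polynomial.C (γ j))).roots =
      Multiset.map γ Finset.univ.val := by
    intro γ
    have h2 := Polynomial.roots_multiset_prod_X_sub_C (Multiset.map γ Finset.univ.val)
    rw [Multiset.map_map] at h2
    exact h2
  have hms : Multiset.map (α p) Finset.univ.val = Multiset.map (β p) Finset.univ.val := by
    rw [← hroots, ← hroots, hpoly]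
  have hp0 : (p : ℂ) ≠ 0 := by exact_mod_cast hp.ne_zero
  have hc : ((p : ℂ) ^ (-(w / 2 : ℝ) : ℂ)) ≠ 0 := by
    rw [Complex.cpow_ne_zero_iff]
    exact Or.inl hp0
  have hms2 := congrArg (Multiset.map fun z => z * ((p : ℂ) ^ (-(w / 2 : ℝ) : ℂ))⁻¹) hms
  rw [Multiset.map_map, Multiset.map_map] at hms2
  have e1 : ((fun z => z * ((p : ℂ) ^ (-(w / 2 : ℝ) : ℂ))⁻¹) ∘ α p) = e p := by
    funext j
    simp only [Function.comp_apply, hα]
    rw [mul_assoc, mul_inv_cancel₀ hc, mul_one]
  have e2 : ((fun z => z * ((p : ℂ) ^ (-(w / 2 : ℝ) : ℂ))⁻¹) ∘ β p) = f p := by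
    funext j
    simp only [Function.comp_apply, hβ]
    rw [mul_assoc, mul_inv_cancel₀ hc, mul_one]
  rw [e1, e2] at hms2
  have g1 := Pool.Agent.TH339.MP.charpoly_prod _ _ (he p)
  have g2 := Pool.Agent.TH339.MP.charpoly_prod _ _ (hf p)
  have g3 : ∏ j, (Polynomial.X - Polynomial.C (e p j)) =
      ∏ j, (Polynomial.X - Polynomial.C (f p j)) := by
    have h4 := congrArg (fun m => (Multiset.map (fun z : ℂ => Polynomial.X - Polynomial.C z) m).prod)
      hms2
    simp only [Multiset.map_map] at h4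
    exact h4
  change (M' p).charpoly = _
  rw [g1, g2, g3]

end Pool.Agent.Results.MP_ef641d_nt.EdgeModuli
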