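import Mathlib
import Pool.Agent.TH119.PT.Main

/-!
# Patching Galois representations over arbitrary families of Galois extensions

Let `K` be a number field and let `P_v` be polynomials for the primes `v` of `K` (the Hecke
polynomials of an automorphic representation of `GL_n` over `K`).  Let `L_i` be finite Galois
extensions of `K` — not necessarily solvable — and let `ρ_i` be semisimple `n`-dimensional
representations of the Galois groups of `L_i`, such that the Frobenius elements at almost all primes
`v` of `K` which split completely in `L_i` have the characteristic polynomial `P_v`.  We show that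
the `ρ_i` come from one representation of the Galois group of `K` if the family is large enough.
-/

namespace Pool.Agent.Results.MP_ef641d_nt.PatchingWithoutSolvability

open NumberField IsDedekindDomain Polynomial

/-- The absolute Galois group, with the Krull topology. -/
abbrev AbsGal (K : Type) [Field K] : Type := Gal(AlgebraicClosure K/K)

/-- `σ` is a Frobenius element at the prime `v` of `K`: there is a maximal ideal `Q` above `v` of the
ring of all algebraic integers with `σ x ≡ x ^ N(v)` modulo `Q` for all `x`. -/
def IsFrobenius {K : Type} [Field K] [NumberField K] (v : HeightOneSpectrum (𝓞 K))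
    (σ : AbsGal K) : Prop :=
  ∃ Q : Ideal (𝓞 (AlgebraicClosure K)), Q.IsMaximal ∧
    Q.comap (algebraMap (𝓞 K) (𝓞 (AlgebraicClosure K))) = v.asIdeal ∧
    ∀ x : 𝓞 (AlgebraicClosure K), σ • x - x ^ Ideal.absNorm v.asIdeal ∈ Q

/-- `σ` is in an inertia group at the prime `v` of `K`: there is a maximal ideal `Q` above `v` of the
ring of all algebraic integers with `σ x ≡ x` modulo `Q` for all `x`. -/
def IsInertia {K : Type} [Field K] [NumberField K] (v : HeightOneSpectrum (𝓞 K))
    (σ : AbsGal K) : Prop :=
  ∃ Q : Ideal (𝓞 (AlgebraicClosure K)), Q.IsMaximal ∧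
    Q.comap (algebraMap (𝓞 K) (𝓞 (AlgebraicClosure K))) = v.asIdeal ∧
    ∀ x : 𝓞 (AlgebraicClosure K), σ • x - x ∈ Q

/-- The representation `ρ` is semisimple: every stable subspace has a stable complement. -/
def IsSemisimple {G : Type} [Group G] {n : ℕ} {k : Type} [Field k]
    (ρ : G →* Matrix.GeneralLinearGroup (Fin n) k) : Prop :=
  ∀ W : Submodule k (Fin n → k),
    (∀ g, ∀ x ∈ W, (ρ g : Matrix (Fin n) (Fin n) k).mulVec x ∈ W) →
    ∃ W' : Submodule k (Fin n → k),
      (∀ g, ∀ x ∈ W', (ρ g : Matrix (Fin n) (Fin n) k).mulVec x ∈ W') ∧ IsCompl W W'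

/-- The prime `v` of `K` splits completely in the Galois extension `L` of `K`: the Frobenius
elements and the inertia groups at `v` act trivially on `L`. -/
def SplitsCompletely {K : Type} [Field K] [NumberField K] (v : HeightOneSpectrum (𝓞 K))
    (L : IntermediateField K (AlgebraicClosure K)) : Prop :=
  ∀ σ : AbsGal K, IsFrobenius v σ ∨ IsInertia v σ → σ ∈ L.fixingSubgroup

/-- The prime `v` is covered by the family `(L_i, ρ_i)`: for every finite extension `F` of `K` there
is an index `i` such that `L_i` and `F` have the intersection `K`, `v` splits completely in `L_i`,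
`ρ_i` is unramified above `v`, and the Frobenius elements at `v` have the characteristic polynomial
`P_v` in `ρ_i`. -/
def IsCovered {K : Type} [Field K] [NumberField K] {n : ℕ} {k : Type} [Field k]
    (P : HeightOneSpectrum (𝓞 K) → k[X]) {I : Type}
    (L : I → IntermediateField K (AlgebraicClosure K))
    (ρ : ∀ i, (L i).fixingSubgroup →* Matrix.GeneralLinearGroup (Fin n) k)
    (v : HeightOneSpectrum (𝓞 K)) : Prop :=
  ∀ F : IntermediateField K (AlgebraicClosure K), FiniteDimensional K F →
    ∃ i, L i ⊓ F = ⊥ ∧ SplitsCompletely v (L i) ∧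
      (∀ σ : (L i).fixingSubgroup, IsInertia v (σ : AbsGal K) → ρ i σ = 1) ∧
      ∀ σ : (L i).fixingSubgroup, IsFrobenius v (σ : AbsGal K) →
        (ρ i σ : Matrix (Fin n) (Fin n) k).charpoly = P v

/-- **Theorem.** Let `K` be a number field, `k` a Hausdorff topological field of characteristic zero
and `P_v` polynomials over `k` for the primes `v` of `K`. Let `L_i` be finite Galois extensions of
`K` in the algebraic closure, such that every finite extension of `K` has intersection `K` with some
`L_i`. Let `ρ_i` be continuous semisimple `n`-dimensional representations over `k` of the absolute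
Galois group of `L_i`, such that the Frobenius elements at `v` in the Galois group of `L_i` have
the characteristic polynomial `P_v`, for all but finitely many `v`. Then there is a continuous
semisimple representation `r` of the absolute Galois group of `K` such that

* for some finite extension `F` of `K` the restriction of `r` to the Galois group of `L_i` is
  conjugate to `ρ_i`, for all `i` such that `L_i` and `F` have the intersection `K`;
* for every covered prime `v` the representation `r` is unramified at `v` and the Frobenius elements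
  at `v` have the characteristic polynomial `P_v`. -/
theorem result {n : ℕ} (K : Type) [Field K] [NumberField K] (k : Type) [Field k] [CharZero k]
    [TopologicalSpace k] [IsTopologicalRing k] [T2Space k]
    (P : HeightOneSpectrum (𝓞 K) → k[X]) {I : Type}
    (L : I → IntermediateField K (AlgebraicClosure K)) [∀ i, FiniteDimensional K (L i)]
    [∀ i, IsGalois K (L i)]
    (hL : ∀ F : IntermediateField K (AlgebraicClosure K), FiniteDimensional K F →
      ∃ i, L i ⊓ F = ⊥)
    (ρ : ∀ i, (L i).fixingSubgroup →* Matrix.GeneralLinearGroup (Fin n) k)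
    (hcont : ∀ i, Continuous fun g => (ρ i g : Matrix (Fin n) (Fin n) k))
    (hss : ∀ i, IsSemisimple (ρ i))
    (hρ : ∀ i, ∃ T : Set (HeightOneSpectrum (𝓞 K)), T.Finite ∧ ∀ v ∉ T,
      ∀ σ : (L i).fixingSubgroup, IsFrobenius v (σ : AbsGal K) →
        (ρ i σ : Matrix (Fin n) (Fin n) k).charpoly = P v) :
    ∃ r : AbsGal K →* Matrix.GeneralLinearGroup (Fin n) k,
      Continuous (fun g => (r g : Matrix (Fin n) (Fin n) k)) ∧ IsSemisimple r ∧
      (∃ F : IntermediateField K (AlgebraicClosure K), FiniteDimensional K F ∧
        ∀ i, L i ⊓ F = ⊥ → ∃ M : Matrix.GeneralLinearGroup (Fin n) k,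
          ∀ σ : (L i).fixingSubgroup, r σ = M⁻¹ * ρ i σ * M) ∧
      ∀ v, IsCovered P L ρ v → (∀ σ, IsInertia v σ → r σ = 1) ∧
        ∀ σ, IsFrobenius v σ → (r σ : Matrix (Fin n) (Fin n) k).charpoly = P v := by
  obtain ⟨r, h1, h2, F, h3, h4⟩ := Pool.Agent.TH119.PT.main P L ρ hcont hss hρ hL
  refine ⟨r, h1, h2, ⟨F, h3, h4⟩, fun v hv => ?_⟩
  obtain ⟨i, hi, hsp, hin, hfr⟩ := hv F h3
  obtain ⟨M, hM⟩ := h4 i hi
  refine ⟨fun σ hσ => ?_, fun σ hσ => ?_⟩
  · have h5 := hM ⟨σ, hsp σ (Or.inr hσ)⟩
    rw [hin ⟨σ, hsp σ (Or.inr hσ)⟩ hσ, mul_one, inv_mul_cancel] at h5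
    exact h5
  · have h5 : r σ = _ := hM ⟨σ, hsp σ (Or.inl hσ)⟩
    rw [h5, ← hfr ⟨σ, hsp σ (Or.inl hσ)⟩ hσ, Units.val_mul, Units.val_mul]
    exact Pool.Agent.TH119.PT.charpoly_cj M _

end Pool.Agent.Results.MP_ef641d_nt.PatchingWithoutSolvability
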